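import Pool.Agent.Helper2.HB.Local

/-!
# Diagonal intersections and the final gluing
-/

open Cardinal Set

namespace Helper2.HB

section fodor

variable {K : Type} [LinearOrder K] [WellFoundedLT K]

theorem exists_lub {s : Set K} (h : BddAbove s) : ∃ x, IsLUB s x := by
  obtain ⟨x, hx, hmin⟩ := (wellFounded_lt (α := K)).has_min (upperBounds s) h
  exact ⟨x, hx, fun y hy => not_lt.1 (hmin y hy)⟩

theorem isClub_Ioi [NoMaxOrder K] (a : K) : IsClub (Ioi a) := by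
  constructor
  · intro d hd hne _ x hx
    obtain ⟨y, hy⟩ := hne
    exact lt_of_lt_of_le (hd hy) (hx.1 hy)
  · intro b
    obtain ⟨y, hy⟩ := exists_gt (max a b)
    exact ⟨y, lt_of_le_of_lt (le_max_left _ _) hy, (lt_of_le_of_lt (le_max_right _ _) hy).le⟩

/-- diagonal intersections of clubs are clubs -/
theorem isClub_diag [NoMaxOrder K] (hcof : ℵ₀ < Order.cof K)
    (hK : ∀ ζ : K, #(Iio ζ) < Order.cof K) (C : K → Set K) (hC : ∀ a, IsClub (C a)) :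
    IsClub {x | ∀ a < x, x ∈ C a} := by
  constructor
  · intro d hd hne _ x hx b hb
    by_cases hxd : x ∈ d
    · exact hd hxd b hb
    · obtain ⟨y0, hy0, hby0⟩ := (lt_isLUB_iff hx).1 hb
      refine (hC b).isLUB_mem (t := {y | y ∈ d ∧ b < y}) ?_ ⟨y0, hy0, hby0⟩ ⟨?_, ?_⟩
      · rintro y ⟨hy, hby⟩
        exact hd hy b hby
      · rintro y ⟨hy, _⟩
        exact hx.1 hy
      · intro u hu
        apply hx.2
        intro y hy
        rcases lt_or_ge b y with h | h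
        · exact hu ⟨hy, h⟩
        · exact h.trans (hby0.le.trans (hu ⟨hy0, hby0⟩))
  · intro a
    have hE : ∀ b : K, IsClub (⋂ c : Iio b, C c) := by
      intro b
      refine IsClub.iInter hcof.ne' ?_ (fun c => hC c)
      simpa using hK b
    have hstep : ∀ b : K, ∃ y, b < y ∧ ∀ c < b, y ∈ C c := by
      intro b
      obtain ⟨b', hb'⟩ := exists_gt b
      obtain ⟨y, hy, hby⟩ := (hE b).isCofinal b'
      exact ⟨y, hb'.trans_le hby, fun c hc => mem_iInter.1 hy ⟨c, hc⟩⟩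
    choose g hg1 hg2 using hstep
    let s : ℕ → K := fun n => g^[n] a
    have hs : ∀ n, s (n + 1) = g (s n) := fun n => Function.iterate_succ_apply' g n a
    have hmono : StrictMono s := strictMono_nat_of_lt_succ fun n => by rw [hs]; exact hg1 _
    have hbdd : BddAbove (range s) := by
      refine .of_not_isCofinal fun h => ?_
      have := (Order.cof_le h).trans Cardinal.mk_range_le
      exact absurd (this.trans (by simp)) (not_le.2 hcof)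
    obtain ⟨x, hx⟩ := exists_lub hbdd
    refine ⟨x, ?_, hx.1 ⟨0, rfl⟩⟩
    intro c hc
    obtain ⟨_, ⟨n, rfl⟩, hcn⟩ := (lt_isLUB_iff hx).1 hc
    refine (hC c).isLUB_mem (t := range fun m => s (n + m + 1)) ?_ (range_nonempty _) ⟨?_, ?_⟩
    · rintro _ ⟨m, rfl⟩
      show s (n + m + 1) ∈ C c
      rw [hs]
      exact hg2 _ c (hcn.trans_le (hmono.monotone (Nat.le_add_right _ _)))
    · rintro _ ⟨m, rfl⟩
      exact hx.1 ⟨_, rfl⟩
    · intro u hu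
      apply hx.2
      rintro _ ⟨m, rfl⟩
      exact (hmono.monotone (by omega : m ≤ n + m + 1)).trans (hu ⟨m, rfl⟩)

theorem stationary_inter (hcof : ℵ₀ < Order.cof K) {S C : Set K} (hS : IsStationary S)
    (hC : IsClub C) : IsStationary (S ∩ C) := by
  intro t ht
  obtain ⟨x, hx1, hx2, hx3⟩ := hS (hC.inter hcof.ne' ht)
  exact ⟨x, ⟨hx1, hx2⟩, hx3⟩

/-- the pressing down lemma, in the form used here -/
theorem pressing_down [NoMaxOrder K] (hcof : ℵ₀ < Order.cof K)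
    (hK : ∀ ζ : K, #(Iio ζ) < Order.cof K) {S : Set K} (hS : IsStationary S) (f : K → K)
    (hf : ∀ ζ ∈ S, f ζ < ζ) : ∃ l, IsStationary {ζ | ζ ∈ S ∧ f ζ ≤ l} := by
  by_contra hcon
  push Not at hcon
  simp only [not_isStationary_iff] at hcon
  choose C hC1 hC2 using hcon
  obtain ⟨ζ, hζ, hζ2⟩ := hS (isClub_diag hcof hK C hC1)
  have h1 := hζ2 (f ζ) (hf ζ hζ)
  exact disjoint_left.1 (hC2 (f ζ)) ⟨hζ, le_rfl⟩ h1

end fodor

/-- `t₀`, `t₁` and the colour `i` have all countable boxes at the level `ζ`. -/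
def HasBoxes {K ι : Type} [LinearOrder K] (T₀ T₁ : Set (Node K)) (c : Node K → Node K → ι)
    (ζ : K) (t₀ t₁ : Node K) (i : ι) : Prop :=
  ∀ u v : ℕ → Node K, (∀ n, u n ∈ T₀ ∧ t₀ ≤ u n ∧ (u n).len < ζ) →
    (∀ n, v n ∈ T₁ ∧ t₁ ≤ v n ∧ (v n).len < ζ) →
    ∃ x y : ℕ → Node K, (∀ n, x n ∈ T₀ ∧ u n ≤ x n ∧ (x n).len = ζ) ∧
      (∀ n, y n ∈ T₁ ∧ v n ≤ y n ∧ (y n).len = ζ) ∧ (∀ m n, c (x m) (y n) = i) ∧
      ∀ N, ∀ w ∈ T₀, t₀ ≤ w → w.len < ζ →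
        ∃ z ∈ T₀, w ≤ z ∧ z.len = ζ ∧ ∀ n < N, c z (y n) = i

section final

variable {κ : Cardinal.{0}}

theorem card_K : #κ.ord.ToType = κ := by simp

theorem exists_Iio_eq {μ : Cardinal.{0}} (h : μ < κ) : ∃ a : κ.ord.ToType, #(Iio a) = μ := by
  have h1 : μ.ord < Ordinal.type (α := κ.ord.ToType) (· < ·) := by
    rw [Ordinal.type_toType]
    exact Cardinal.ord_lt_ord.2 h
  obtain ⟨a, ha⟩ := Ordinal.typein_surj (α := κ.ord.ToType) (· < ·) h1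
  refine ⟨a, ?_⟩
  have h2 : #(Iio a) = (Ordinal.typein (α := κ.ord.ToType) (· < ·) a).card := rfl
  rw [h2, ha, Cardinal.card_ord]

theorem exists_diag (hκ : κ.IsRegular) (hκ0 : ℵ₀ < κ)
    {T : Set (Node κ.ord.ToType)} (hT : IsRegularTree T) :
    ∃ h : κ.ord.ToType → κ.ord.ToType, ∀ ζ, (∀ η < ζ, ζ ∈ Ioi (h η)) → IsRegCard ζ →
      #(Low T ζ) ≤ #(Iio ζ) := by
  classical
  have hlev : ∀ η : κ.ord.ToType, ∃ a : κ.ord.ToType,
      #{t // t ∈ T ∧ t.len = η} = #(Iio a) := by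
    intro η
    have h1 := hT.level η
    rw [card_K] at h1
    obtain ⟨a, ha⟩ := exists_Iio_eq h1
    exact ⟨a, ha.symm⟩
  choose h hh using hlev
  have hj : ∀ η : κ.ord.ToType, Nonempty ({t // t ∈ T ∧ t.len = η} ↪ Iio (h η)) := by
    intro η
    exact (hh η).le
  let j : ∀ η : κ.ord.ToType, {t // t ∈ T ∧ t.len = η} ↪ Iio (h η) := fun η => (hj η).some
  refine ⟨h, ?_⟩
  intro ζ hζ hreg
  have hJ : ℵ₀ ≤ #(Iio ζ) := hreg.aleph0.le
  have hsmall : ∀ η (hη : η < ζ) (x : {t // t ∈ T ∧ t.len = η}), (j η x).1 ∈ Iio ζ := by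
    intro η hη x
    exact lt_trans (show (j η x).1 < h η from (j η x).2) (hζ η hη)
  have hle : #(Low T ζ) ≤ #(Iio ζ × Iio ζ) := by
    refine Cardinal.mk_le_of_injective (f := fun t : Low T ζ =>
      ((⟨t.1.len, t.2.2⟩ : Iio ζ), (⟨(j t.1.len ⟨t.1, t.2.1, rfl⟩).1,
        hsmall t.1.len t.2.2 _⟩ : Iio ζ))) ?_
    rintro ⟨t, ht, htl⟩ ⟨t', ht', htl'⟩ heq
    have h1 : t.len = t'.len := congrArg (fun z : Iio ζ × Iio ζ => z.1.1) heq
    have h2 : (j t.len ⟨t, ht, rfl⟩).1 = (j t'.len ⟨t', ht', rfl⟩).1 :=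
      congrArg (fun z : Iio ζ × Iio ζ => z.2.1) heq
    have key : ∀ (η : κ.ord.ToType) (e : t'.len = η) (e' : t.len = η),
        (j η ⟨t, ht, e'⟩).1 = (j η ⟨t', ht', e⟩).1 → t = t' := by
      intro η e e' hjj
      have := (j η).injective (Subtype.ext hjj)
      simpa using this
    have h3 : ∀ (η : κ.ord.ToType) (e : t'.len = η), (j t'.len ⟨t', ht', rfl⟩).1 =
        (j η ⟨t', ht', e⟩).1 := by
      intro η e; subst e; rfl
    apply Subtype.ext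
    exact key t.len h1.symm rfl (h2.trans (h3 t.len h1.symm))
  refine hle.trans ?_
  rw [Cardinal.mk_prod]
  simp only [Cardinal.lift_id]
  rw [Cardinal.mul_eq_self hJ]

theorem exists_club (hκ : κ.IsRegular) (hκ0 : ℵ₀ < κ) [NoMaxOrder κ.ord.ToType]
    {T : Set (Node κ.ord.ToType)} (hT : IsRegularTree T) :
    ∃ C : Set κ.ord.ToType, IsClub C ∧ ∀ ζ ∈ C, IsRegCard ζ → #(Low T ζ) ≤ #(Iio ζ) := by
  have hcof : Order.cof κ.ord.ToType = κ := by rw [Ordinal.cof_toType, hκ.cof_ord]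
  obtain ⟨h, hh⟩ := exists_diag hκ hκ0 hT
  exact ⟨{ζ | ∀ η < ζ, ζ ∈ Ioi (h η)}, isClub_diag (by rw [hcof]; exact hκ0)
    (fun ζ => by rw [hcof]; exact Cardinal.mk_Iio_toType_ord_lt ζ) _ (fun a => isClub_Ioi _),
    fun ζ hζ => hh ζ hζ⟩

theorem card_low_lt (hκ : κ.IsRegular) {T : Set (Node κ.ord.ToType)} (hT : IsRegularTree T)
    (l : κ.ord.ToType) : #(Low T l) < κ := by
  have h1 : #(Low T l) ≤ #(Σ η : Iio l, {t // t ∈ T ∧ t.len = η.1}) := by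
    refine Cardinal.mk_le_of_injective (f := fun t : Low T l =>
      (⟨⟨t.1.len, t.2.2⟩, ⟨t.1, t.2.1, rfl⟩⟩ : Σ η : Iio l, {t // t ∈ T ∧ t.len = η.1})) ?_
    rintro ⟨t, ht, htl⟩ ⟨t', ht', htl'⟩ heq
    have := congrArg (fun z : (Σ η : Iio l, {t // t ∈ T ∧ t.len = η.1}) => (z.2.1 : Node _)) heq
    exact Subtype.ext this
  refine lt_of_le_of_lt h1 ?_
  rw [Cardinal.mk_sigma]
  refine Cardinal.sum_lt_of_isRegular hκ (Cardinal.mk_Iio_toType_ord_lt l) fun η => ?_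
  have := hT.level η.1
  rwa [card_K] at this

theorem main (hκ : κ.IsRegular) {R : Set κ.ord.ToType} (hR : IsStationary R)
    (hR' : ∀ ζ ∈ R, IsRegCard ζ) {ι : Type} [Finite ι] {T₀ T₁ : Set (Node κ.ord.ToType)}
    (h₀ : IsRegularTree T₀) (h₁ : IsRegularTree T₁)
    (c : Node κ.ord.ToType → Node κ.ord.ToType → ι) :
    ∃ t₀ ∈ T₀, ∃ t₁ ∈ T₁, ∃ i : ι, ∃ S ⊆ R, IsStationary S ∧
      ∀ ζ ∈ S, t₀.len < ζ ∧ t₁.len < ζ ∧ HasBoxes T₀ T₁ c ζ t₀ t₁ i := by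
  classical
  obtain ⟨ζ0, hζ0⟩ := hR.nonempty
  have hκ0 : ℵ₀ < κ := (hR' ζ0 hζ0).aleph0.trans (Cardinal.mk_Iio_toType_ord_lt ζ0)
  haveI : NoMaxOrder κ.ord.ToType := Cardinal.noMaxOrder hκ.aleph0_le
  have hcof : Order.cof κ.ord.ToType = κ := by rw [Ordinal.cof_toType, hκ.cof_ord]
  have hcof' : ℵ₀ < Order.cof κ.ord.ToType := by rw [hcof]; exact hκ0
  have hIio : ∀ ζ : κ.ord.ToType, #(Iio ζ) < Order.cof κ.ord.ToType := fun ζ => by
    rw [hcof]; exact Cardinal.mk_Iio_toType_ord_lt ζ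
  have hK : ∀ ζ : κ.ord.ToType, #(Iio ζ) < #κ.ord.ToType := fun ζ => by
    rw [card_K]; exact Cardinal.mk_Iio_toType_ord_lt ζ
  obtain ⟨C₀, hC₀, hC₀'⟩ := exists_club hκ hκ0 h₀
  obtain ⟨C₁, hC₁, hC₁'⟩ := exists_club hκ hκ0 h₁
  set R' : Set κ.ord.ToType := R ∩ C₀ ∩ C₁ with hR'def
  have hR's : IsStationary R' := stationary_inter hcof' (stationary_inter hcof' hR hC₀) hC₁
  have hloc : ∀ ζ ∈ R', ∃ (t : Node κ.ord.ToType × Node κ.ord.ToType × ι),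
      t.1 ∈ T₀ ∧ t.2.1 ∈ T₁ ∧ t.1.len < ζ ∧ t.2.1.len < ζ ∧ HasBoxes T₀ T₁ c ζ t.1 t.2.1 t.2.2 := by
    rintro ζ ⟨⟨hζR, hζ0⟩, hζ1⟩
    obtain ⟨t₀, t₁, i, hb⟩ := local_boxes h₀ h₁ hK (hR' ζ hζR) (hC₀' ζ hζ0 (hR' ζ hζR))
      (hC₁' ζ hζ1 (hR' ζ hζR)) c
    exact ⟨(t₀.1, t₁.1, i), t₀.2.1, t₁.2.1, t₀.2.2, t₁.2.2, hb⟩
  obtain ⟨ζ1, hζ1⟩ := hR's.nonempty
  haveI : Nonempty (Node κ.ord.ToType × Node κ.ord.ToType × ι) := ⟨(hloc ζ1 hζ1).choose⟩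
  choose! g hg0 hg1 hg2 hg3 hg4 using hloc
  obtain ⟨l, hl⟩ := pressing_down hcof' hIio hR's (fun ζ => max (g ζ).1.len (g ζ).2.1.len)
    (fun ζ hζ => max_lt (hg2 ζ hζ) (hg3 ζ hζ))
  obtain ⟨l', hl'⟩ := exists_gt l
  have hun : IsStationary (⋃ z : Low T₀ l' × Low T₁ l' × ι,
      {ζ | ζ ∈ R' ∧ g ζ = (z.1.1, z.2.1.1, z.2.2)}) := by
    refine hl.mono ?_
    rintro ζ ⟨hζ, hζl⟩
    refine mem_iUnion.2 ⟨(⟨(g ζ).1, hg0 ζ hζ, ?_⟩, ⟨(g ζ).2.1, hg1 ζ hζ, ?_⟩, (g ζ).2.2), hζ, rfl⟩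
    · exact (le_max_left _ _).trans_lt (hζl.trans_lt hl')
    · exact (le_max_right _ _).trans_lt (hζl.trans_lt hl')
  have hZ : #(Low T₀ l' × Low T₁ l' × ι) < κ := by
    rw [Cardinal.mk_prod, Cardinal.mk_prod]
    simp only [Cardinal.lift_id]
    refine Cardinal.mul_lt_of_lt hκ.aleph0_le (card_low_lt hκ h₀ l') ?_
    exact Cardinal.mul_lt_of_lt hκ.aleph0_le (card_low_lt hκ h₁ l')
      ((Cardinal.lt_aleph0_of_finite ι).trans hκ0)
  rw [isStationary_iUnion_iff hcof'.ne' (by rw [hcof]; simpa using hZ)] at hun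
  obtain ⟨z, hz⟩ := hun
  obtain ⟨ζ2, hζ2⟩ := hz.nonempty
  refine ⟨z.1.1, z.1.2.1, z.2.1.1, z.2.1.2.1, z.2.2,
    {ζ | ζ ∈ R' ∧ g ζ = (z.1.1, z.2.1.1, z.2.2)}, fun ζ hζ => hζ.1.1.1, hz, ?_⟩
  rintro ζ ⟨hζ, hgζ⟩
  have e1 := hg2 ζ hζ
  have e2 := hg3 ζ hζ
  have e3 := hg4 ζ hζ
  rw [hgζ] at e1 e2 e3
  exact ⟨e1, e2, e3⟩

end final

end Helper2.HB
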