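import Mathlib

/-!
# Countable boxes, the abstract argument

`X` is a set of points with cones `CP p`, `p : P` (think of a dense set of at most `mu` branches),
`Y` is a set of points with cones `CQ q`, `q : Q`, and `I` is an ideal on `Y` (the `mu`-meagre
sets).  For a colouring `F : X → Y → ι` with finitely many colours there are `p0`, `q0` and a
colour `i` such that any two countable families of cones above `p0`, `q0` contain points
`x m`, `y n` with `F (x m) (y n) = i` for all `m`, `n`.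
-/

namespace Helper2.HB

variable {X Y P Q ι : Type*} [Preorder P] [Preorder Q]

/-- `A` is dense above `p`. -/
def Dn (CP : P → Set X) (A : Set X) (p : P) : Prop := ∀ p', p ≤ p' → (A ∩ CP p').Nonempty

/-- `B` is everywhere large above `q`. -/
def Lg (CQ : Q → Set Y) (I : Set Y → Prop) (B : Set Y) (q : Q) : Prop :=
  ∀ q', q ≤ q' → ¬ I (B ∩ CQ q')

/-- the set of points of `A` that see colour `i` with all of `V`. -/
def secA (F : X → Y → ι) (i : ι) (A : Set X) (V : Set Y) : Set X := {x | x ∈ A ∧ ∀ y ∈ V, F x y = i}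

/-- the set of points of `B` that see colour `i` with all of `U`. -/
def secB (F : X → Y → ι) (i : ι) (B : Set Y) (U : Set X) : Set Y := {y | y ∈ B ∧ ∀ x ∈ U, F x y = i}

structure Sys (CP : P → Set X) (CQ : Q → Set Y) (I : Set Y → Prop) : Prop where
  antiP : ∀ p p', p ≤ p' → CP p' ⊆ CP p
  neP : ∀ p, (CP p).Nonempty
  neQ : ∀ q, ¬ I (CQ q)
  /-- a set that is dense above a point is not a countable union of nowhere dense sets -/
  sigma : ∀ (N : ℕ → Set X) (p : P), Dn CP (⋃ n, N n) p → ∃ n p', Dn CP (N n) p'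
  mono : ∀ N N', N ⊆ N' → I N' → I N
  empty : I ∅
  union : ∀ N N', I N → I N' → I (N ∪ N')
  unionP : ∀ f : P → Set Y, (∀ p, I (f p)) → I (⋃ p, f p)
  unionX : ∀ f : X → Set Y, (∀ x, I (f x)) → I (⋃ x, f x)
  banach : ∀ B, ¬ I B → ∃ q, Lg CQ I B q

variable {CP : P → Set X} {CQ : Q → Set Y} {I : Set Y → Prop}

theorem Sys.exists_core (S : Sys CP CQ I) [Finite ι] [Nonempty P] [Nonempty Q] (F : X → Y → ι) :
    ∃ (A : Set X) (B : Set Y) (p0 : P) (q0 : Q) (i : ι), Dn CP A p0 ∧ Lg CQ I B q0 ∧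
      ∀ (A' : Set X) (B' : Set Y) (p : P) (q : Q), A' ⊆ A → B' ⊆ B → Dn CP A' p → Lg CQ I B' q →
        ∃ x ∈ A', ∃ y ∈ B', F x y = i := by
  classical
  have := Fintype.ofFinite ι
  let good : Finset ι → Prop := fun D => ∃ (A : Set X) (B : Set Y) (p : P) (q : Q),
    Dn CP A p ∧ Lg CQ I B q ∧ ∀ x ∈ A, ∀ y ∈ B, F x y ∈ D
  have h0 : good Finset.univ := by
    obtain ⟨p⟩ := (inferInstance : Nonempty P)
    obtain ⟨q⟩ := (inferInstance : Nonempty Q)
    refine ⟨Set.univ, Set.univ, p, q, ?_, ?_, fun _ _ _ _ => Finset.mem_univ _⟩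
    · intro p' _
      simpa using S.neP p'
    · intro q' _
      simpa using S.neQ q'
  have hex : ∃ n : ℕ, ∃ D : Finset ι, D.card = n ∧ good D := ⟨_, _, rfl, h0⟩
  obtain ⟨D, hDc, hD⟩ := Nat.find_spec hex
  have hmin : ∀ D' : Finset ι, good D' → D.card ≤ D'.card := by
    intro D' hD'
    rw [hDc]
    exact Nat.find_min' hex ⟨D', rfl, hD'⟩
  obtain ⟨A, B, p0, q0, hA, hB, hF⟩ := hD
  obtain ⟨x, hx⟩ := hA p0 le_rfl
  have hBne : B.Nonempty := by
    by_contra hne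
    rw [Set.not_nonempty_iff_eq_empty] at hne
    apply hB q0 le_rfl
    rw [hne, Set.empty_inter]
    exact S.empty
  obtain ⟨y, hy⟩ := hBne
  refine ⟨A, B, p0, q0, F x y, hA, hB, ?_⟩
  intro A' B' p q hAA hBB hA' hB'
  by_contra hcon
  push Not at hcon
  have hgood : good (D.erase (F x y)) := by
    refine ⟨A', B', p, q, hA', hB', ?_⟩
    intro a ha b hb
    exact Finset.mem_erase.2 ⟨hcon a ha b hb, hF a (hAA ha) b (hBB hb)⟩
  have h1 := hmin _ hgood
  have h2 : (D.erase (F x y)).card < D.card := Finset.card_erase_lt_of_mem (hF x hx.1 y hy)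
  omega

section moves

variable (S : Sys CP CQ I) {F : X → Y → ι} {i : ι} {A : Set X} {B : Set Y}
  (hcore : ∀ (A' : Set X) (B' : Set Y) (p : P) (q : Q), A' ⊆ A → B' ⊆ B → Dn CP A' p →
    Lg CQ I B' q → ∃ x ∈ A', ∃ y ∈ B', F x y = i)

include S hcore

theorem Sys.move_y {A' : Set X} {B' : Set Y} {p : P} {q : Q} (hAA : A' ⊆ A) (hBB : B' ⊆ B)
    (hA' : Dn CP A' p) (hB' : ¬ I (B' ∩ CQ q)) :
    ∃ y ∈ B' ∩ CQ q, Dn CP {x | x ∈ A' ∧ F x y = i} p := by
  classical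
  by_contra hcon
  push Not at hcon
  have h1 : ∀ y ∈ B' ∩ CQ q, ∃ p', p ≤ p' ∧ ¬ (({x | x ∈ A' ∧ F x y = i} : Set X) ∩ CP p').Nonempty := by
    intro y hy
    have := hcon y hy
    unfold Dn at this
    push Not at this
    obtain ⟨p', hp, hn⟩ := this
    exact ⟨p', hp, by rw [hn]; simp⟩
  haveI : Nonempty P := ⟨p⟩
  choose! g hg1 hg2 using h1
  have h2 : ∃ p', ¬ I {y | y ∈ B' ∩ CQ q ∧ g y = p'} := by
    by_contra hall
    push Not at hall
    apply hB'
    refine S.mono _ _ ?_ (S.unionP _ hall)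
    intro y hy
    exact Set.mem_iUnion.2 ⟨g y, hy, rfl⟩
  obtain ⟨p', hp'⟩ := h2
  obtain ⟨q', hq'⟩ := S.banach _ hp'
  have hne : ∃ y, y ∈ B' ∩ CQ q ∧ g y = p' := by
    by_contra hne
    push Not at hne
    apply hp'
    convert S.empty
    ext y
    simp only [Set.mem_ofPred_eq, Set.mem_empty_iff_false, iff_false, not_and]
    exact hne y
  obtain ⟨y0, hy0, hgy0⟩ := hne
  have hpp : p ≤ p' := hgy0 ▸ hg1 y0 hy0
  obtain ⟨x, hx, y, hy, hxy⟩ := hcore (A' ∩ CP p') {y | y ∈ B' ∩ CQ q ∧ g y = p'} p' q'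
    (fun x hx => hAA hx.1) (fun y hy => hBB hy.1.1)
    (fun p'' hp'' => by
      obtain ⟨x, hx1, hx2⟩ := hA' p'' (hpp.trans hp'')
      exact ⟨x, ⟨hx1, S.antiP _ _ hp'' hx2⟩, hx2⟩) hq'
  apply hg2 y hy.1
  rw [hy.2]
  exact ⟨x, ⟨hx.1, hxy⟩, hx.2⟩

theorem Sys.move_x {A' : Set X} {B' : Set Y} {p : P} (q : ℕ → Q) (hAA : A' ⊆ A) (hBB : B' ⊆ B)
    (hA' : Dn CP A' p) (hB' : ∀ j, ¬ I (B' ∩ CQ (q j))) :
    ∃ x ∈ A' ∩ CP p, ∀ j, ¬ I ({y | y ∈ B' ∧ F x y = i} ∩ CQ (q j)) := by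
  classical
  by_contra hcon
  push Not at hcon
  have hd : Dn CP (⋃ j, {x | x ∈ A' ∩ CP p ∧ I ({y | y ∈ B' ∧ F x y = i} ∩ CQ (q j))}) p := by
    intro p' hp'
    obtain ⟨x, hx1, hx2⟩ := hA' p' hp'
    have hx3 : x ∈ A' ∩ CP p := ⟨hx1, S.antiP _ _ hp' hx2⟩
    obtain ⟨j, hj⟩ := hcon x hx3
    exact ⟨x, Set.mem_iUnion.2 ⟨j, hx3, hj⟩, hx2⟩
  obtain ⟨j, p', hp'⟩ := S.sigma _ p hd
  set N : Set X := {x | x ∈ A' ∩ CP p ∧ I ({y | y ∈ B' ∧ F x y = i} ∩ CQ (q j))} with hN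
  set U : Set Y := ⋃ x : X, (if x ∈ N then {y | y ∈ B' ∧ F x y = i} ∩ CQ (q j) else ∅) with hU
  have hIU : I U := by
    refine S.unionX _ fun x => ?_
    split_ifs with hx
    · exact hx.2
    · exact S.empty
  have hBU : ¬ I ((B' ∩ CQ (q j)) \ U) := by
    intro hI
    apply hB' j
    refine S.mono _ _ ?_ (S.union _ _ hI hIU)
    intro y hy
    by_cases hyU : y ∈ U
    · exact Or.inr hyU
    · exact Or.inl ⟨hy, hyU⟩
  obtain ⟨q', hq'⟩ := S.banach _ hBU
  obtain ⟨x, hx, y, hy, hxy⟩ := hcore N ((B' ∩ CQ (q j)) \ U) p' q'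
    (fun x hx => hAA hx.1.1) (fun y hy => hBB hy.1.1) hp' hq'
  apply hy.2
  rw [hU, Set.mem_iUnion]
  refine ⟨x, ?_⟩
  rw [if_pos hx]
  exact ⟨⟨hy.1.1, hxy⟩, hy.1.2⟩

end moves

/-- The abstract box theorem. -/
theorem Sys.boxes (S : Sys CP CQ I) [Finite ι] [Nonempty P] [Nonempty Q] (F : X → Y → ι) :
    ∃ (p0 : P) (q0 : Q) (i : ι), ∀ (p : ℕ → P) (q : ℕ → Q), (∀ n, p0 ≤ p n) → (∀ n, q0 ≤ q n) →
      ∃ (x : ℕ → X) (y : ℕ → Y), (∀ n, x n ∈ CP (p n)) ∧ (∀ n, y n ∈ CQ (q n)) ∧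
        (∀ m n, F (x m) (y n) = i) ∧
        ∀ N, Dn CP {z | ∀ n < N, F z (y n) = i} p0 := by
  classical
  obtain ⟨A, B, p0, q0, i, hA, hB, hcore⟩ := S.exists_core F
  refine ⟨p0, q0, i, fun p q hp hq => ?_⟩
  -- states
  let St := {s : ℕ × Set X × Set Y // Dn CP (secA F i A s.2.2) p0 ∧
    ∀ j, ¬ I (secB F i B s.2.1 ∩ CQ (q j))}
  have hstep : ∀ s : St, ∃ (x : X) (y : Y), x ∈ secA F i A s.1.2.2 ∧ x ∈ CP (p s.1.1) ∧
      y ∈ secB F i B (insert x s.1.2.1) ∧ y ∈ CQ (q s.1.1) ∧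
      Dn CP (secA F i A (insert y s.1.2.2)) p0 ∧
      ∀ j, ¬ I (secB F i B (insert x s.1.2.1) ∩ CQ (q j)) := by
    rintro ⟨⟨n, U, V⟩, hAV, hBU⟩
    have hAV' : Dn CP (secA F i A V) (p n) := fun p' hp' => hAV p' ((hp n).trans hp')
    obtain ⟨x, hx, hx2⟩ := S.move_x hcore q (fun x hx => hx.1) (fun y hy => hy.1) hAV' hBU
    have heq : ({y | y ∈ secB F i B U ∧ F x y = i} : Set Y) = secB F i B (insert x U) := by
      ext y
      simp only [secB, Set.mem_ofPred_eq, Set.mem_insert_iff, forall_eq_or_imp]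
      tauto
    rw [heq] at hx2
    obtain ⟨y, hy, hy2⟩ := S.move_y hcore (A' := secA F i A V) (p := p0) (fun x hx => hx.1)
      (fun y hy => hy.1) hAV (hx2 n)
    have heq2 : ({x | x ∈ secA F i A V ∧ F x y = i} : Set X) = secA F i A (insert y V) := by
      ext z
      simp only [secA, Set.mem_ofPred_eq, Set.mem_insert_iff, forall_eq_or_imp]
      tauto
    rw [heq2] at hy2
    exact ⟨x, y, hx.1, hx.2, hy.1, hy.2, hy2, hx2⟩
  choose gx gy h1 h2 h3 h4 h5 h6 using hstep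
  let nxt : St → St := fun s => ⟨(s.1.1 + 1, insert (gx s) s.1.2.1, insert (gy s) s.1.2.2),
    h5 s, h6 s⟩
  have hs0 : Dn CP (secA F i A ∅) p0 ∧ ∀ j, ¬ I (secB F i B ∅ ∩ CQ (q j)) := by
    constructor
    · have : secA F i A ∅ = A := by
        ext z; simp [secA]
      rw [this]; exact hA
    · intro j
      have : secB F i B ∅ = B := by
        ext z; simp [secB]
      rw [this]; exact hB _ (hq j)
  let s0 : St := ⟨(0, ∅, ∅), hs0⟩
  let s : ℕ → St := fun n => nxt^[n] s0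
  have hs : ∀ n, s (n + 1) = nxt (s n) := fun n => Function.iterate_succ_apply' nxt n s0
  have hn : ∀ n, (s n).1.1 = n := by
    intro n
    induction n with
    | zero => rfl
    | succ n ih => rw [hs]; simp [nxt, ih]
  have hU : ∀ n m, m < n → gx (s m) ∈ (s n).1.2.1 := by
    intro n
    induction n with
    | zero => intro m hm; omega
    | succ n ih =>
      intro m hm
      rw [hs]
      rcases Nat.lt_succ_iff_lt_or_eq.1 hm with h | h
      · exact Set.mem_insert_of_mem _ (ih m h)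
      · subst h; exact Set.mem_insert _ _
  have hV : ∀ n m, m < n → gy (s m) ∈ (s n).1.2.2 := by
    intro n
    induction n with
    | zero => intro m hm; omega
    | succ n ih =>
      intro m hm
      rw [hs]
      rcases Nat.lt_succ_iff_lt_or_eq.1 hm with h | h
      · exact Set.mem_insert_of_mem _ (ih m h)
      · subst h; exact Set.mem_insert _ _
  refine ⟨fun n => gx (s n), fun n => gy (s n), ?_, ?_, ?_, ?_⟩
  · intro n
    have := h2 (s n)
    rwa [hn n] at this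
  · intro n
    have := h4 (s n)
    rwa [hn n] at this
  · intro m n
    rcases lt_or_ge n m with h | h
    · exact (h1 (s m)).2 _ (hV m n h)
    · rcases eq_or_lt_of_le h with h' | h'
      · subst h'
        exact (h3 (s m)).2 _ (Set.mem_insert _ _)
      · exact (h3 (s n)).2 _ (Set.mem_insert_of_mem _ (hU n m h'))
  · intro N p' hp'
    obtain ⟨z, hz, hz2⟩ := (s N).2.1 p' hp'
    exact ⟨z, fun n hn' => hz.2 _ (hV N n hn'), hz2⟩

end Helper2.HB
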