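import Mathlib

/-!
# Regular trees in the tree of functions `ζ → κ`, `ζ < κ`
-/

open Cardinal Set

namespace Helper2.HB

/-- A node of the tree of functions `ζ → K`, `ζ ∈ K`: its length `len = ζ` and its values; from
`len` on the values are the least element of `K`. -/
structure Node (K : Type) [LinearOrder K] where
  len : K
  val : K → K
  supp : ∀ η, len ≤ η → ∀ ξ, val η ≤ ξ

variable {K : Type} [LinearOrder K]

theorem Node.eq_of {a b : Node K} (h : a.len = b.len) (hv : ∀ η < a.len, a.val η = b.val η) :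
    a = b := by
  have hval : a.val = b.val := by
    funext η
    rcases lt_or_ge η a.len with h' | h'
    · exact hv η h'
    · exact le_antisymm (a.supp η h' _) (b.supp η (h ▸ h') _)
  cases a; cases b
  simp only at h hval
  subst h; subst hval; rfl

/-- `s ≤ t`: the function `t` end-extends the function `s`. -/
instance : PartialOrder (Node K) where
  le s t := s.len ≤ t.len ∧ ∀ η < s.len, s.val η = t.val η
  le_refl s := ⟨le_rfl, fun _ _ => rfl⟩
  le_trans a b c h1 h2 :=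
    ⟨h1.1.trans h2.1, fun η hη => (h1.2 η hη).trans (h2.2 η (hη.trans_le h1.1))⟩
  le_antisymm a b h1 h2 := Node.eq_of (le_antisymm h1.1 h2.1) h1.2

def Node.restr (r : Node K) (l : K) : Node K where
  len := l
  val := fun η => if η < l then r.val η else r.val r.len
  supp := by
    intro η h ξ
    rw [if_neg (not_lt.2 h)]
    exact r.supp _ le_rfl ξ

theorem Node.restr_le {r : Node K} {l : K} (h : l ≤ r.len) : r.restr l ≤ r :=
  ⟨h, fun η hη => by simp only [restr] at hη ⊢; rw [if_pos hη]⟩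

theorem Node.le_restr {s r : Node K} (h : s ≤ r) {l : K} (hl : s.len ≤ l) : s ≤ r.restr l :=
  ⟨hl, fun η hη => by simp only [restr]; rw [if_pos (hη.trans_le hl)]; exact h.2 η hη⟩

theorem Node.le_of_le_of_le {a b r : Node K} (ha : a ≤ r) (hb : b ≤ r) (h : a.len ≤ b.len) :
    a ≤ b :=
  ⟨h, fun η hη => (ha.2 η hη).trans (hb.2 η (hη.trans_le h)).symm⟩

theorem Node.le_of_len {a b : Node K} (h : a ≤ b) (h' : b.len ≤ a.len) : b ≤ a :=
  ⟨h', fun η hη => (h.2 η (hη.trans_le h')).symm⟩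

/-- `T` is a regular tree: closed under initial segments, of size `#K`, with levels of size less
than `#K`, perfect (every node has an extension with two different immediate successors) and all
its maximal branches (maximal chains) have cofinality `#K`. -/
structure IsRegularTree (T : Set (Node K)) : Prop where
  down : ∀ t ∈ T, ∀ s, s ≤ t → s ∈ T
  card : #T = #K
  level : ∀ ζ : K, #{t // t ∈ T ∧ t.len = ζ} < #K
  perfect : ∀ t ∈ T, ∃ s ∈ T, t ≤ s ∧
    ∃ a ∈ T, ∃ b ∈ T, s ≤ a ∧ s ≤ b ∧ a ≠ b ∧ s.len ⋖ a.len ∧ a.len = b.len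
  branch : ∀ C : Set T, IsMaxChain (· ≤ ·) C → ∀ D ⊆ C, (∀ c ∈ C, ∃ d ∈ D, c ≤ d) → #K ≤ #D

variable {T : Set (Node K)}

theorem IsRegularTree.exists_ge (hT : IsRegularTree T) (hK : ∀ ζ : K, #(Iio ζ) < #K) {C : Set T}
    (hC : IsMaxChain (· ≤ ·) C) (ζ : K) : ∃ r ∈ C, ζ ≤ (r : Node K).len := by
  by_contra hcon
  push Not at hcon
  have h1 := hT.branch C hC C subset_rfl (fun c hc => ⟨c, hc, le_rfl⟩)
  have h2 : #C ≤ #(Iio ζ) := by
    refine Cardinal.mk_le_of_injective (f := fun r : C => (⟨(r.1 : Node K).len, hcon _ r.2⟩ : Iio ζ)) ?_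
    intro r s hrs
    have hlen : ((r : T) : Node K).len = ((s : T) : Node K).len := by
      simpa using congrArg Subtype.val hrs
    rcases hC.isChain.total r.2 s.2 with h | h
    · exact Subtype.ext (Subtype.ext (le_antisymm h (Node.le_of_len h hlen.ge)))
    · exact Subtype.ext (Subtype.ext (le_antisymm (Node.le_of_len h hlen.le) h))
  exact absurd (h1.trans h2) (not_le.2 (hK ζ))

/-- the only closure property of regular trees that is used -/
theorem IsRegularTree.ub (hT : IsRegularTree T) (hK : ∀ ζ : K, #(Iio ζ) < #K) {D : Set (Node K)}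
    (hD : D ⊆ T) (hc : IsChain (· ≤ ·) D) (l : K) (hl : ∀ d ∈ D, d.len ≤ l) :
    ∃ r ∈ T, r.len = l ∧ ∀ d ∈ D, d ≤ r := by
  have hc' : IsChain (· ≤ ·) {t : T | (t : Node K) ∈ D} := by
    intro a ha b hb hab
    exact hc ha hb (fun h => hab (Subtype.ext h))
  obtain ⟨M, hM, hDM⟩ := hc'.exists_maxChain
  obtain ⟨r, hr, hlr⟩ := hT.exists_ge hK hM l
  refine ⟨(r : Node K).restr l, hT.down _ r.2 _ (Node.restr_le hlr), rfl, fun d hd => ?_⟩
  have hd' : (⟨d, hD hd⟩ : T) ∈ M := hDM hd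
  have hdr : d ≤ r := by
    rcases hM.isChain.total hd' hr with h | h
    · exact h
    · exact Node.le_of_len h ((hl d hd).trans hlr)
  exact Node.le_restr hdr (hl d hd)

/-- `ζ` is a regular uncountable cardinal. -/
def IsRegCard [WellFoundedLT K] (ζ : K) : Prop :=
  ∃ μ : Cardinal.{0}, μ.IsRegular ∧ ℵ₀ < μ ∧ Ordinal.typein (α := K) (· < ·) ζ = μ.ord

theorem IsRegCard.mk [WellFoundedLT K] {ζ : K} {μ : Cardinal.{0}}
    (h : Ordinal.typein (α := K) (· < ·) ζ = μ.ord) : #(Iio ζ) = μ := by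
  have h1 : #(Iio ζ) = (Ordinal.typein (α := K) (· < ·) ζ).card := rfl
  rw [h1, h, Cardinal.card_ord]

theorem IsRegCard.bdd [WellFoundedLT K] {ζ : K} (hζ : IsRegCard ζ) {Z : Type} (hZ : #Z < #(Iio ζ))
    (g : Z → K) (hg : ∀ z, g z < ζ) : ∃ l < ζ, ∀ z, g z ≤ l := by
  obtain ⟨μ, hμ, hμ0, ht⟩ := hζ
  rw [IsRegCard.mk ht] at hZ
  by_contra hcon
  push Not at hcon
  have hcof : Order.cof (Iio ζ) = μ := by
    rw [Order.cof_Iio, ht, hμ.cof_ord]
  have hcf : IsCofinal (range (fun z => (⟨g z, hg z⟩ : Iio ζ))) := by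
    intro l
    obtain ⟨z, hz⟩ := hcon l.1 l.2
    exact ⟨⟨g z, hg z⟩, ⟨z, rfl⟩, hz.le⟩
  have h1 := Order.cof_le hcf
  rw [hcof] at h1
  exact absurd (h1.trans Cardinal.mk_range_le) (not_le.2 hZ)

theorem IsRegCard.lt [WellFoundedLT K] {ζ : K} (hζ : IsRegCard ζ) {η : K} (hη : η < ζ) :
    #(Iio η) < #(Iio ζ) := by
  obtain ⟨μ, hμ, hμ0, ht⟩ := hζ
  rw [IsRegCard.mk ht]
  have h1 : Ordinal.typein (α := K) (· < ·) η < μ.ord := by
    rw [← ht]; exact (Ordinal.typein_lt_typein (α := K) (· < ·)).2 hη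
  exact Cardinal.lt_ord.1 h1

theorem IsRegCard.aleph0 [WellFoundedLT K] {ζ : K} (hζ : IsRegCard ζ) : ℵ₀ < #(Iio ζ) := by
  obtain ⟨μ, hμ, hμ0, ht⟩ := hζ
  rwa [IsRegCard.mk ht]

end Helper2.HB
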