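import Pool.Agent.Helper2.HB.Abs
import Pool.Agent.Helper2.HB.Node

/-!
# Countable boxes at one level
-/

open Cardinal Set

namespace Helper2.HB

section ideal

variable {Y Q : Type} [Preorder Q]

def ND (CQ : Q → Set Y) (M : Set Y) : Prop := ∀ q, ∃ q', q ≤ q' ∧ M ∩ CQ q' = ∅

def Mg (CQ : Q → Set Y) (J : Type) (N : Set Y) : Prop :=
  ∃ f : J → Set Y, (∀ j, ND CQ (f j)) ∧ N ⊆ ⋃ j, f j

variable {CQ : Q → Set Y} {J : Type}

theorem ND.empty : ND CQ ∅ := fun q => ⟨q, le_rfl, by simp⟩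

theorem Mg.mono {N N' : Set Y} (h : N ⊆ N') : Mg CQ J N' → Mg CQ J N :=
  fun ⟨f, h1, h2⟩ => ⟨f, h1, h.trans h2⟩

theorem Mg.empty : Mg CQ J ∅ := ⟨fun _ => ∅, fun _ => ND.empty, by simp⟩

theorem Mg.of_ND [Nonempty J] {M : Set Y} (h : ND CQ M) : Mg CQ J M :=
  ⟨fun _ => M, fun _ => h, by intro x hx; exact mem_iUnion.2 ⟨Classical.arbitrary J, hx⟩⟩

theorem Mg.iUnion {Z : Type} (hJ : ℵ₀ ≤ #J) (hZ : #Z ≤ #J) (g : Z → Set Y)
    (hg : ∀ z, Mg CQ J (g z)) : Mg CQ J (⋃ z, g z) := by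
  classical
  rcases isEmpty_or_nonempty Z with hZe | hZn
  · refine Mg.mono ?_ Mg.empty
    intro x hx
    obtain ⟨z, _⟩ := mem_iUnion.1 hx
    exact hZe.elim z
  · have hJn : Nonempty J := by
      rw [← Cardinal.mk_ne_zero_iff]
      intro h0
      rw [h0] at hJ
      exact absurd hJ (not_le.2 Cardinal.aleph0_pos)
    choose F hF1 hF2 using hg
    have hcard : #(Z × J) ≤ #J := by
      rw [Cardinal.mk_prod, Cardinal.lift_id, Cardinal.lift_id]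
      calc #Z * #J ≤ #J * #J := mul_le_mul' hZ le_rfl
        _ = #J := Cardinal.mul_eq_self hJ
    obtain ⟨φ⟩ := hcard
    have hsurj : Function.Surjective (Function.invFun φ) :=
      Function.invFun_surjective φ.injective
    refine ⟨fun j => F (Function.invFun φ j).1 (Function.invFun φ j).2, fun j => hF1 _ _, ?_⟩
    intro x hx
    obtain ⟨z, hz⟩ := mem_iUnion.1 hx
    obtain ⟨k, hk⟩ := mem_iUnion.1 (hF2 z hz)
    obtain ⟨j, hj⟩ := hsurj (z, k)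
    refine mem_iUnion.2 ⟨j, ?_⟩
    simp only [hj]
    exact hk

theorem Mg.union (hJ : ℵ₀ ≤ #J) {N N' : Set Y} (h : Mg CQ J N) (h' : Mg CQ J N') :
    Mg CQ J (N ∪ N') := by
  have h1 : Mg CQ J (⋃ b : Bool, bif b then N else N') := by
    refine Mg.iUnion hJ ?_ _ ?_
    · exact (Cardinal.lt_aleph0_of_finite Bool).le.trans hJ
    · intro b; cases b
      · exact h'
      · exact h
  refine Mg.mono ?_ h1
  rintro x (hx | hx)
  · exact mem_iUnion.2 ⟨true, hx⟩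
  · exact mem_iUnion.2 ⟨false, hx⟩

theorem Mg.banach (hJ : ℵ₀ ≤ #J) (hQ : #Q ≤ #J) {B : Set Y} (hB : ¬ Mg CQ J B) :
    ∃ q, Lg CQ (Mg CQ J) B q := by
  classical
  by_contra hcon
  unfold Lg at hcon
  push Not at hcon
  choose g hg1 hg2 using hcon
  have hJn : Nonempty J := by
    rw [← Cardinal.mk_ne_zero_iff]
    intro h0
    rw [h0] at hJ
    exact absurd hJ (not_le.2 Cardinal.aleph0_pos)
  apply hB
  have h1 : Mg CQ J (⋃ q, B ∩ CQ (g q)) := Mg.iUnion hJ hQ _ hg2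
  have h2 : Mg CQ J (B \ ⋃ q, CQ (g q)) := by
    refine Mg.of_ND fun q => ⟨g q, hg1 q, ?_⟩
    ext y
    simp only [mem_inter_iff, mem_sdiff, mem_iUnion, mem_empty_iff_false, iff_false, not_and,
      and_imp, not_exists]
    intro _ h h'
    exact h q h'
  refine Mg.mono ?_ (Mg.union hJ h1 h2)
  intro y hy
  by_cases h : y ∈ ⋃ q, CQ (g q)
  · obtain ⟨q, hq⟩ := mem_iUnion.1 h
    exact Or.inl (mem_iUnion.2 ⟨q, hy, hq⟩)
  · exact Or.inr ⟨hy, h⟩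

end ideal

section level

variable {K : Type} [LinearOrder K] [WellFoundedLT K] {T : Set (Node K)} {ζ : K}

/-- the nodes of `T` of length less than `ζ` -/
abbrev Low (T : Set (Node K)) (ζ : K) : Type := {t : Node K // t ∈ T ∧ t.len < ζ}

/-- the nodes of `T` of length `ζ` -/
abbrev Lev (T : Set (Node K)) (ζ : K) : Type := {t : Node K // t ∈ T ∧ t.len = ζ}

def cone (q : Low T ζ) : Set (Lev T ζ) := {y | q.1 ≤ y.1}

theorem not_meagre_cone (hT : IsRegularTree T) (hK : ∀ ζ : K, #(Iio ζ) < #K) (hζ : IsRegCard ζ)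
    (q0 : Low T ζ) : ¬ Mg (cone (T := T) (ζ := ζ)) (Iio ζ) (cone q0) := by
  classical
  rintro ⟨f, hf1, hf2⟩
  let step : ∀ η : K, (∀ ξ : K, ξ < η → Low T ζ) → Low T ζ := fun η ih =>
    if h : ∃ s : Low T ζ, q0 ≤ s ∧ (∀ ξ (hξ : ξ < η), ih ξ hξ ≤ s) ∧
        (∀ hη : η < ζ, f ⟨η, hη⟩ ∩ cone s = ∅) then h.choose else q0
  let r : K → Low T ζ := (wellFounded_lt (α := K)).fix step
  have hr : ∀ η, r η = step η (fun ξ _ => r ξ) := fun η => WellFounded.fix_eq _ _ _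
  have hgood : ∀ η, η < ζ → q0 ≤ r η ∧ (∀ ξ < η, r ξ ≤ r η) ∧
      (∀ hη : η < ζ, f ⟨η, hη⟩ ∩ cone (r η) = ∅) := by
    intro η
    induction η using WellFoundedLT.induction with
    | ind η ih =>
      intro hη
      have hex : ∃ s : Low T ζ, q0 ≤ s ∧ (∀ ξ (hξ : ξ < η), r ξ ≤ s) ∧
          (∀ hη : η < ζ, f ⟨η, hη⟩ ∩ cone s = ∅) := by
        obtain ⟨l, hl, hl2⟩ := hζ.bdd (hζ.lt hη) (fun ξ : Iio η => (r ξ.1).1.len)
          (fun ξ => (r ξ.1).2.2)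
        let D : Set (Node K) := insert q0.1 {t | ∃ ξ < η, t = (r ξ).1}
        have hD : D ⊆ T := by
          rintro t (rfl | ⟨ξ, _, rfl⟩)
          · exact q0.2.1
          · exact (r ξ).2.1
        have hc : IsChain (· ≤ ·) D := by
          refine IsChain.insert ?_ ?_
          · rintro a ⟨ξ, hξ, rfl⟩ b ⟨ξ', hξ', rfl⟩ _
            rcases lt_trichotomy ξ ξ' with h | h | h
            · exact Or.inl ((ih ξ' hξ' (hξ'.trans hη)).2.1 ξ h)
            · subst h; exact Or.inl le_rfl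
            · exact Or.inr ((ih ξ hξ (hξ.trans hη)).2.1 ξ' h)
          · rintro b ⟨ξ, hξ, rfl⟩ _
            exact Or.inl (ih ξ hξ (hξ.trans hη)).1
        obtain ⟨s, hs, hsl, hsD⟩ := hT.ub hK hD hc (max l q0.1.len) (by
          rintro t (rfl | ⟨ξ, hξ, rfl⟩)
          · exact le_max_right _ _
          · exact (hl2 ⟨ξ, hξ⟩).trans (le_max_left _ _))
        obtain ⟨s', hs', hs2⟩ := hf1 ⟨η, hη⟩ ⟨s, hs, by rw [hsl]; exact max_lt hl q0.2.2⟩
        refine ⟨s', ?_, ?_, fun _ => hs2⟩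
        · exact le_trans (hsD _ (Or.inl rfl) : q0.1 ≤ s) hs'
        · intro ξ hξ
          exact le_trans (hsD _ (Or.inr ⟨ξ, hξ, rfl⟩) : (r ξ).1 ≤ s) hs'
      have : r η = hex.choose := by
        rw [hr]; simp only [step]; rw [dif_pos hex]
      rw [this]
      exact hex.choose_spec
  let D : Set (Node K) := insert q0.1 {t | ∃ ξ < ζ, t = (r ξ).1}
  have hD : D ⊆ T := by
    rintro t (rfl | ⟨ξ, _, rfl⟩)
    · exact q0.2.1
    · exact (r ξ).2.1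
  have hc : IsChain (· ≤ ·) D := by
    refine IsChain.insert ?_ ?_
    · rintro a ⟨ξ, hξ, rfl⟩ b ⟨ξ', hξ', rfl⟩ _
      rcases lt_trichotomy ξ ξ' with h | h | h
      · exact Or.inl ((hgood ξ' hξ').2.1 ξ h)
      · subst h; exact Or.inl le_rfl
      · exact Or.inr ((hgood ξ hξ).2.1 ξ' h)
    · rintro b ⟨ξ, hξ, rfl⟩ _
      exact Or.inl (hgood ξ hξ).1
  obtain ⟨y, hy, hyl, hyD⟩ := hT.ub hK hD hc ζ (by
    rintro t (rfl | ⟨ξ, hξ, rfl⟩)
    · exact q0.2.2.le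
    · exact (r ξ).2.2.le)
  have hy0 : (⟨y, hy, hyl⟩ : Lev T ζ) ∈ cone q0 := hyD _ (Or.inl rfl)
  obtain ⟨⟨η, hη⟩, hj⟩ := mem_iUnion.1 (hf2 hy0)
  have hyη : (⟨y, hy, hyl⟩ : Lev T ζ) ∈ cone (r η) := hyD _ (Or.inr ⟨η, hη, rfl⟩)
  have hem := (hgood η hη).2.2 hη
  have hin : (⟨y, hy, hyl⟩ : Lev T ζ) ∈ f ⟨η, hη⟩ ∩ cone (r η) := ⟨hj, hyη⟩
  rw [hem] at hin
  exact hin

theorem exists_above (hT : IsRegularTree T) (hK : ∀ ζ : K, #(Iio ζ) < #K) (p : Node K)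
    (hp : p ∈ T) (l : K) (hl : p.len ≤ l) : ∃ r ∈ T, p ≤ r ∧ r.len = l := by
  obtain ⟨r, hr, hrl, hrD⟩ := hT.ub hK (D := {p}) (by simpa using hp) (by simp) l (by simpa using hl)
  exact ⟨r, hr, hrD p rfl, hrl⟩

theorem low_nonempty (hT : IsRegularTree T) (hK : ∀ ζ : K, #(Iio ζ) < #K) (hζ : IsRegCard ζ) :
    Nonempty (Low T ζ) := by
  have h1 := hζ.aleph0
  have : Nonempty (Iio ζ) := by
    rw [← Cardinal.mk_ne_zero_iff]
    intro h0
    rw [h0] at h1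
    exact absurd h1 (by simp)
  obtain ⟨η, hη⟩ := this
  obtain ⟨r, hr, hrl, _⟩ := hT.ub hK (D := ∅) (by simp) (by simp) η (by simp)
  exact ⟨⟨r, hr, by rw [hrl]; exact hη⟩⟩

end level

/-- Countable boxes at the level `ζ`. -/
theorem local_boxes {K : Type} [LinearOrder K] [WellFoundedLT K] {T₀ T₁ : Set (Node K)}
    (hT₀ : IsRegularTree T₀) (hT₁ : IsRegularTree T₁) (hK : ∀ ζ : K, #(Iio ζ) < #K) {ζ : K}
    (hζ : IsRegCard ζ) (h0 : #(Low T₀ ζ) ≤ #(Iio ζ)) (h1 : #(Low T₁ ζ) ≤ #(Iio ζ))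
    {ι : Type} [Finite ι] (c : Node K → Node K → ι) :
    ∃ (t₀ : Low T₀ ζ) (t₁ : Low T₁ ζ) (i : ι), ∀ u v : ℕ → Node K,
      (∀ n, u n ∈ T₀ ∧ t₀.1 ≤ u n ∧ (u n).len < ζ) →
      (∀ n, v n ∈ T₁ ∧ t₁.1 ≤ v n ∧ (v n).len < ζ) →
      ∃ x y : ℕ → Node K, (∀ n, x n ∈ T₀ ∧ u n ≤ x n ∧ (x n).len = ζ) ∧
        (∀ n, y n ∈ T₁ ∧ v n ≤ y n ∧ (y n).len = ζ) ∧ (∀ m n, c (x m) (y n) = i) ∧
        ∀ N, ∀ w ∈ T₀, t₀.1 ≤ w → w.len < ζ →
          ∃ z ∈ T₀, w ≤ z ∧ z.len = ζ ∧ ∀ n < N, c z (y n) = i := by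
  classical
  have hex : ∀ p : Low T₀ ζ, ∃ r ∈ T₀, p.1 ≤ r ∧ r.len = ζ := fun p =>
    exists_above hT₀ hK p.1 p.2.1 ζ p.2.2.le
  choose e he1 he2 he3 using hex
  let CP : Low T₀ ζ → Set (Low T₀ ζ) := fun p => {x | p.1 ≤ e x}
  have hJ : ℵ₀ ≤ #(Iio ζ) := hζ.aleph0.le
  have S : Sys CP (cone (T := T₁) (ζ := ζ)) (Mg (cone (T := T₁) (ζ := ζ)) (Iio ζ)) := by
    refine ⟨?_, ?_, ?_, ?_, ?_, Mg.empty, ?_, ?_, ?_, ?_⟩
    · intro p p' hp x hx
      show p.1 ≤ e x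
      exact le_trans (show p.1 ≤ p'.1 from hp) (show p'.1 ≤ e x from hx)
    · intro p
      exact ⟨p, he2 p⟩
    · intro q
      exact not_meagre_cone hT₁ hK hζ q
    · intro N p hp
      by_contra hcon
      push Not at hcon
      have hcon' : ∀ n (p' : Low T₀ ζ), ∃ p'', p' ≤ p'' ∧ ¬ (N n ∩ CP p'').Nonempty := by
        intro n p'
        have := hcon n p'
        unfold Dn at this
        push Not at this
        obtain ⟨p'', h, h'⟩ := this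
        exact ⟨p'', h, by rw [h']; simp⟩
      choose g hg1 hg2 using hcon'
      let s : ℕ → Low T₀ ζ := fun n => Nat.rec p (fun n t => g n t) n
      have hs0 : s 0 = p := rfl
      have hs : ∀ n, s (n + 1) = g n (s n) := fun n => rfl
      have hmono : Monotone s := monotone_nat_of_le_succ fun n => by rw [hs]; exact hg1 n _
      obtain ⟨l, hl, hl2⟩ := hζ.bdd (Z := ℕ) (by simpa using hζ.aleph0) (fun n => (s n).1.len)
        (fun n => (s n).2.2)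
      obtain ⟨r, hr, hrl, hrD⟩ := hT₀.ub hK (D := range fun n => (s n).1)
        (by rintro _ ⟨n, rfl⟩; exact (s n).2.1)
        (by
          rintro _ ⟨m, rfl⟩ _ ⟨n, rfl⟩ _
          rcases le_total m n with h | h
          · exact Or.inl (hmono h)
          · exact Or.inr (hmono h)) l
        (by rintro _ ⟨n, rfl⟩; exact hl2 n)
      let pω : Low T₀ ζ := ⟨r, hr, by rw [hrl]; exact hl⟩
      obtain ⟨x, hx1, hx2⟩ := hp pω (hrD _ ⟨0, rfl⟩)
      obtain ⟨n, hn⟩ := mem_iUnion.1 hx1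
      apply hg2 n (s n)
      refine ⟨x, hn, ?_⟩
      have h3 : (s (n + 1)).1 ≤ r := hrD _ ⟨n + 1, rfl⟩
      show (g n (s n)).1 ≤ e x
      exact le_trans h3 (show r ≤ e x from hx2)
    · intro N N' h h'
      exact Mg.mono h h'
    · intro N N' h h'
      exact Mg.union hJ h h'
    · intro f hf
      exact Mg.iUnion hJ h0 f hf
    · intro f hf
      exact Mg.iUnion hJ h0 f hf
    · intro B hB
      exact Mg.banach hJ h1 hB
  haveI := low_nonempty hT₀ hK hζ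
  haveI := low_nonempty hT₁ hK hζ
  obtain ⟨p0, q0, i, hmain⟩ := S.boxes (fun x y => c (e x) y.1)
  refine ⟨p0, q0, i, fun u v hu hv => ?_⟩
  obtain ⟨x, y, hx, hy, hxy, hN⟩ := hmain (fun n => ⟨u n, (hu n).1, (hu n).2.2⟩)
    (fun n => ⟨v n, (hv n).1, (hv n).2.2⟩) (fun n => (hu n).2.1) (fun n => (hv n).2.1)
  refine ⟨fun n => e (x n), fun n => (y n).1, fun n => ⟨he1 _, hx n, he3 _⟩,
    fun n => ⟨(y n).2.1, hy n, (y n).2.2⟩, hxy, ?_⟩
  intro N w hw hw1 hw2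
  obtain ⟨z, hz1, hz2⟩ := hN N ⟨w, hw, hw2⟩ hw1
  exact ⟨e z, he1 z, hz2, he3 z, hz1⟩

end Helper2.HB
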