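import Pool.Agent.Helper2.HB.Stat

/-!
# The case of a normal ultrafilter
-/

open Cardinal Set

namespace Helper2.HB

/-- `D` is a normal ultrafilter: it contains the final segments and every function that is
regressive on a set of `D` is constant on a set of `D`. -/
structure IsNormalUlt {K : Type} [LinearOrder K] (D : Ultrafilter K) : Prop where
  tail : ∀ a, Ioi a ∈ D
  press : ∀ f : K → K, {ζ | f ζ < ζ} ∈ D → ∃ a, {ζ | f ζ = a} ∈ D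

section

variable {K : Type} [LinearOrder K] {D : Ultrafilter K}

theorem IsNormalUlt.diag (hD : IsNormalUlt D) (A : K → Set K) (hA : ∀ a, A a ∈ D) :
    {ζ | ∀ a < ζ, ζ ∈ A a} ∈ D := by
  classical
  by_contra hcon
  have h1 : {ζ | ∀ a < ζ, ζ ∈ A a}ᶜ ∈ D := Ultrafilter.compl_mem_iff_notMem.2 hcon
  have h2 : ∀ ζ ∈ {ζ | ∀ a < ζ, ζ ∈ A a}ᶜ, ∃ a, a < ζ ∧ ζ ∉ A a := by
    intro ζ hζ
    simp only [mem_compl_iff, mem_ofPred_eq] at hζ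
    push Not at hζ
    exact hζ
  have hne : Nonempty K := by
    obtain ⟨x, _⟩ := D.nonempty_of_mem h1
    exact ⟨x⟩
  choose! f hf1 hf2 using h2
  obtain ⟨a, ha⟩ := hD.press f (Filter.mem_of_superset h1 hf1)
  have h3 := Filter.inter_mem (Filter.inter_mem h1 ha) (hA a)
  obtain ⟨ζ, ⟨hζ1, hζ2⟩, hζ3⟩ := D.nonempty_of_mem h3
  have := hf2 ζ hζ1
  rw [show f ζ = a from hζ2] at this
  exact this hζ3

theorem IsNormalUlt.complete (hD : IsNormalUlt D) (l : K) (A : K → Set K) (hA : ∀ a < l, A a ∈ D) :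
    {ζ | ∀ a < l, ζ ∈ A a} ∈ D := by
  classical
  have h1 := hD.diag (fun a => if a < l then A a else univ) (by
    intro a
    split_ifs with h
    · exact hA a h
    · exact Filter.univ_mem)
  refine Filter.mem_of_superset (Filter.inter_mem h1 (hD.tail l)) ?_
  rintro ζ ⟨hζ, hlζ⟩ a ha
  have := hζ a (ha.trans hlζ)
  rwa [if_pos ha] at this

theorem IsNormalUlt.complete' (hD : IsNormalUlt D) (l : K) {Z : Type} (hZ : #Z ≤ #(Iio l))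
    (A : Z → Set K) (hA : ∀ z, A z ∈ D) : (⋂ z, A z) ∈ D := by
  classical
  obtain ⟨φ⟩ := hZ
  have h1 := hD.complete l (fun a => if h : ∃ z, (φ z).1 = a then A h.choose else univ) (by
    intro a _
    split_ifs with h
    · exact hA _
    · exact Filter.univ_mem)
  refine Filter.mem_of_superset h1 ?_
  intro ζ hζ
  refine mem_iInter.2 fun z => ?_
  have h2 := hζ (φ z).1 (φ z).2
  have hex : ∃ z', (φ z').1 = (φ z).1 := ⟨z, rfl⟩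
  rw [dif_pos hex] at h2
  have h3 : hex.choose = z := φ.injective (Subtype.ext hex.choose_spec)
  rwa [h3] at h2

theorem IsNormalUlt.regular (hD : IsNormalUlt D) [WellFoundedLT K] (w : K)
    (hw : Ordinal.typein (α := K) (· < ·) w = Ordinal.omega0) : {ζ : K | IsRegCard ζ} ∈ D := by
  classical
  -- bad points
  let bad : Set K := {ζ | ∃ η < ζ, ∃ g : K → K, (∀ ξ < η, g ξ < ζ) ∧ ∀ a < ζ, ∃ ξ < η, a ≤ g ξ}
  have hbad : bad ∉ D := by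
    intro hb
    have hne : Nonempty K := ⟨w⟩
    have h0 : ∀ ζ ∈ bad, ∃ η, η < ζ ∧ ∃ g : K → K, (∀ ξ < η, g ξ < ζ) ∧
        ∀ a < ζ, ∃ ξ < η, a ≤ g ξ := fun ζ hζ => hζ
    choose! η hη g hg1 hg2 using h0
    obtain ⟨l, hl⟩ := hD.press η (Filter.mem_of_superset hb hη)
    have hE : bad ∩ {ζ | η ζ = l} ∈ D := Filter.inter_mem hb hl
    have hcol : ∀ ξ, ∃ a, ξ < l → {ζ | g ζ ξ = a} ∈ D := by
      intro ξ
      by_cases hξ : ξ < l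
      · obtain ⟨a, ha⟩ := hD.press (fun ζ => g ζ ξ) (Filter.mem_of_superset hE (by
          rintro ζ ⟨hζ, hζl⟩
          have : ξ < η ζ := by rw [show η ζ = l from hζl]; exact hξ
          exact hg1 ζ hζ ξ this))
        exact ⟨a, fun _ => ha⟩
      · exact ⟨ξ, fun h => absurd h hξ⟩
    choose a ha using hcol
    have hE' : bad ∩ {ζ | η ζ = l} ∩ {ζ | ∀ ξ < l, ζ ∈ {ζ | g ζ ξ = a ξ}} ∈ D :=
      Filter.inter_mem hE (hD.complete l _ (fun ξ hξ => ha ξ hξ))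
    obtain ⟨ζ, ⟨hζb, hζl⟩, hζg⟩ := D.nonempty_of_mem hE'
    obtain ⟨ζ', ⟨⟨hζb', hζl'⟩, hζg'⟩, hlt⟩ := D.nonempty_of_mem (Filter.inter_mem hE' (hD.tail ζ))
    obtain ⟨ξ, hξ, hle⟩ := hg2 ζ' hζb' ζ hlt
    rw [show η ζ' = l from hζl'] at hξ
    have e1 : g ζ' ξ = a ξ := hζg' ξ hξ
    have e2 : g ζ ξ = a ξ := hζg ξ hξ
    have e3 : g ζ ξ < ζ := hg1 ζ hζb ξ (by rw [show η ζ = l from hζl]; exact hξ)
    rw [e1, ← e2] at hle
    exact absurd hle (not_le.2 e3)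
  have hgood : badᶜ ∩ Ioi w ∈ D :=
    Filter.inter_mem (Ultrafilter.compl_mem_iff_notMem.2 hbad) (hD.tail w)
  refine Filter.mem_of_superset hgood ?_
  rintro ζ ⟨hζ, hwζ⟩
  set o := Ordinal.typein (α := K) (· < ·) ζ with ho
  have hwo : Ordinal.omega0 < o := by
    rw [← hw, ho]; exact (Ordinal.typein_lt_typein (α := K) (· < ·)).2 hwζ
  have hle : o.cof.ord ≤ o := Ordinal.ord_cof_le o
  have heq : o.cof.ord = o := by
    by_contra hne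
    have hlt : o.cof.ord < o := lt_of_le_of_ne hle hne
    apply hζ
    have hlt' : o.cof.ord < Ordinal.type (α := K) (· < ·) :=
      hlt.trans (Ordinal.typein_lt_type _ ζ)
    obtain ⟨η, hη⟩ := Ordinal.typein_surj (α := K) (· < ·) hlt'
    have hηζ : η < ζ := by
      rw [← Ordinal.typein_lt_typein (α := K) (· < ·), hη]; exact hlt
    obtain ⟨s, hs, hsc⟩ := Order.exists_cof_eq (α := Iio ζ)
    have hcard : #(Iio η) = #s := by
      have h2 : #(Iio η) = (Ordinal.typein (α := K) (· < ·) η).card := rfl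
      rw [h2, hη, Cardinal.card_ord, hsc, Order.cof_Iio]
    obtain ⟨e⟩ := Cardinal.eq.1 hcard
    refine ⟨η, hηζ, fun ξ => if h : ξ < η then ((e ⟨ξ, h⟩).1 : K) else ξ, ?_, ?_⟩
    · intro ξ hξ
      beta_reduce
      rw [dif_pos hξ]
      exact (e ⟨ξ, hξ⟩).1.2
    · intro a ha
      obtain ⟨b, hb, hab⟩ := hs ⟨a, ha⟩
      obtain ⟨⟨ξ, hξ⟩, hξe⟩ := e.surjective ⟨b, hb⟩
      refine ⟨ξ, hξ, ?_⟩
      beta_reduce
      rw [dif_pos (show ξ < η from hξ), hξe]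
      exact hab
  have hω : ℵ₀ < o.cof := by
    have h1 : Ordinal.omega0 < o.cof.ord := by rw [heq]; exact hwo
    rw [← Cardinal.ord_aleph0] at h1
    exact Cardinal.ord_lt_ord.1 h1
  refine ⟨o.cof, ⟨hω.le, ?_⟩, hω, heq.symm⟩
  rw [heq]

end

/-- The theorem for a normal ultrafilter. -/
theorem main_normal {κ : Cardinal.{0}} (hκ : κ.IsRegular) (hκ0 : ℵ₀ < κ)
    (D : Ultrafilter κ.ord.ToType) (hD : IsNormalUlt D)
    {ι : Type} [Finite ι] {T₀ T₁ : Set (Node κ.ord.ToType)}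
    (h₀ : IsRegularTree T₀) (h₁ : IsRegularTree T₁)
    (c : Node κ.ord.ToType → Node κ.ord.ToType → ι) :
    ∃ t₀ ∈ T₀, ∃ t₁ ∈ T₁, ∃ i : ι,
      {ζ | t₀.len < ζ ∧ t₁.len < ζ ∧ HasBoxes T₀ T₁ c ζ t₀ t₁ i} ∈ D := by
  classical
  haveI : NoMaxOrder κ.ord.ToType := Cardinal.noMaxOrder hκ.aleph0_le
  have hK : ∀ ζ : κ.ord.ToType, #(Iio ζ) < #κ.ord.ToType := fun ζ => by
    rw [card_K]; exact Cardinal.mk_Iio_toType_ord_lt ζ
  have hω : Ordinal.omega0 < Ordinal.type (α := κ.ord.ToType) (· < ·) := by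
    rw [Ordinal.type_toType, ← Cardinal.ord_aleph0]
    exact Cardinal.ord_lt_ord.2 hκ0
  obtain ⟨w, hw⟩ := Ordinal.typein_surj (α := κ.ord.ToType) (· < ·) hω
  obtain ⟨C₀, hC₀'⟩ := exists_diag hκ hκ0 h₀
  obtain ⟨C₁, hC₁'⟩ := exists_diag hκ hκ0 h₁
  have hR' : {ζ | IsRegCard ζ} ∩ {ζ | ∀ η < ζ, ζ ∈ Ioi (C₀ η)} ∩ {ζ | ∀ η < ζ, ζ ∈ Ioi (C₁ η)} ∈ D :=
    Filter.inter_mem (Filter.inter_mem (hD.regular w hw) (hD.diag _ fun a => hD.tail _))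
      (hD.diag _ fun a => hD.tail _)
  set R' := {ζ | IsRegCard ζ} ∩ {ζ | ∀ η < ζ, ζ ∈ Ioi (C₀ η)} ∩ {ζ | ∀ η < ζ, ζ ∈ Ioi (C₁ η)}
    with hR'def
  have hloc : ∀ ζ ∈ R', ∃ (t : Node κ.ord.ToType × Node κ.ord.ToType × ι),
      t.1 ∈ T₀ ∧ t.2.1 ∈ T₁ ∧ t.1.len < ζ ∧ t.2.1.len < ζ ∧ HasBoxes T₀ T₁ c ζ t.1 t.2.1 t.2.2 := by
    rintro ζ ⟨⟨hζR, hζ0⟩, hζ1⟩
    obtain ⟨t₀, t₁, i, hb⟩ := local_boxes h₀ h₁ hK hζR (hC₀' ζ hζ0 hζR) (hC₁' ζ hζ1 hζR) c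
    exact ⟨(t₀.1, t₁.1, i), t₀.2.1, t₁.2.1, t₀.2.2, t₁.2.2, hb⟩
  obtain ⟨ζ1, hζ1⟩ := D.nonempty_of_mem hR'
  haveI : Nonempty (Node κ.ord.ToType × Node κ.ord.ToType × ι) := ⟨(hloc ζ1 hζ1).choose⟩
  choose! g hg0 hg1 hg2 hg3 hg4 using hloc
  obtain ⟨l, hl⟩ := hD.press (fun ζ => max (g ζ).1.len (g ζ).2.1.len)
    (Filter.mem_of_superset hR' (fun ζ hζ => max_lt (hg2 ζ hζ) (hg3 ζ hζ)))
  obtain ⟨l', hl'⟩ := exists_gt l
  have hZ : #(Low T₀ l' × Low T₁ l' × ι) < κ := by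
    rw [Cardinal.mk_prod, Cardinal.mk_prod]
    simp only [Cardinal.lift_id]
    refine Cardinal.mul_lt_of_lt hκ.aleph0_le (card_low_lt hκ h₀ l') ?_
    exact Cardinal.mul_lt_of_lt hκ.aleph0_le (card_low_lt hκ h₁ l')
      ((Cardinal.lt_aleph0_of_finite ι).trans hκ0)
  obtain ⟨b, hb⟩ := exists_Iio_eq hZ
  have hex : ∃ z : Low T₀ l' × Low T₁ l' × ι,
      {ζ | ζ ∈ R' ∧ g ζ = (z.1.1, z.2.1.1, z.2.2)} ∈ D := by
    by_contra hcon
    push Not at hcon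
    have h1 := hD.complete' b hb.ge (fun z : Low T₀ l' × Low T₁ l' × ι =>
      {ζ | ζ ∈ R' ∧ g ζ = (z.1.1, z.2.1.1, z.2.2)}ᶜ)
      (fun z => Ultrafilter.compl_mem_iff_notMem.2 (hcon z))
    obtain ⟨ζ, ⟨hζ, hζl⟩, hζR⟩ := D.nonempty_of_mem (Filter.inter_mem (Filter.inter_mem h1 hl) hR')
    have hζl' : max (g ζ).1.len (g ζ).2.1.len = l := hζl
    have h2 := mem_iInter.1 hζ (⟨(g ζ).1, hg0 ζ hζR, ?_⟩, ⟨(g ζ).2.1, hg1 ζ hζR, ?_⟩, (g ζ).2.2)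
    · exact h2 ⟨hζR, rfl⟩
    · exact (le_max_left _ _).trans_lt (hζl'.le.trans_lt hl')
    · exact (le_max_right _ _).trans_lt (hζl'.le.trans_lt hl')
  obtain ⟨z, hz⟩ := hex
  refine ⟨z.1.1, z.1.2.1, z.2.1.1, z.2.1.2.1, z.2.2, Filter.mem_of_superset hz ?_⟩
  rintro ζ ⟨hζ, hgζ⟩
  have e1 := hg2 ζ hζ
  have e2 := hg3 ζ hζ
  have e3 := hg4 ζ hζ
  rw [hgζ] at e1 e2 e3
  exact ⟨e1, e2, e3⟩

end Helper2.HB
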